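import Mathlib
import Pool.Agent.H117R2.UC.Defs

/-!
# Union-closed constant 0.383, task T03b: lower bounds for `D1` on `[3/4, 24/25]`
(generated; the polynomial inequalities are in Bernstein form)
-/

set_option autoImplicit false

namespace Pool.Agent.H896R2.UC
open Real Pool.Agent.H117R2.UC

theorem log_ub_one {u : ℝ} (hu : 0 < u) :
    log u ≤ (u - 1) - (u - 1) ^ 2 / 2 + (u - 1) ^ 3 / 3 := by
  -- f(u) = rhs - log u has derivative (u-1)^3/u
  set f : ℝ → ℝ := fun u => (u - 1) - (u - 1) ^ 2 / 2 + (u - 1) ^ 3 / 3 - log u with hf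
  have hder : ∀ v : ℝ, 0 < v → HasDerivAt f ((v - 1) ^ 3 / v) v := by
    intro v hv
    have h1 : HasDerivAt (fun u : ℝ => u - 1) 1 v := (hasDerivAt_id v).sub_const 1
    have h2 := ((h1.sub ((h1.pow 2).div_const 2)).add ((h1.pow 3).div_const 3)).sub
      (hasDerivAt_log hv.ne')
    refine (h2.congr_deriv ?_)
    field_simp
    ring
  have hcont : ∀ v : ℝ, 0 < v → ContinuousAt f v := fun v hv => (hder v hv).continuousAt
  have h0 : f 1 = 0 := by simp [hf]
  have key : 0 ≤ f u := by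
    rcases le_total 1 u with h | h
    · have hm : MonotoneOn f (Set.Ici 1) := by
        apply monotoneOn_of_deriv_nonneg (convex_Ici 1)
        · intro v hv
          have hv1 : (1 : ℝ) ≤ v := hv
          exact (hcont v (by linarith)).continuousWithinAt
        · intro v hv
          rw [interior_Ici] at hv
          have hv1 : (1 : ℝ) < v := hv
          exact (hder v (by linarith)).differentiableAt.differentiableWithinAt
        · intro v hv
          rw [interior_Ici] at hv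
          have hv1 : (1 : ℝ) < v := hv
          rw [(hder v (by linarith)).deriv]
          have : 0 ≤ v - 1 := by linarith
          positivity
      have := hm (Set.mem_Ici.mpr le_rfl) (Set.mem_Ici.mpr h) h
      rwa [h0] at this
    · have hm : AntitoneOn f (Set.Ioc 0 1) := by
        apply antitoneOn_of_deriv_nonpos (convex_Ioc 0 1)
        · intro v hv
          exact (hcont v hv.1).continuousWithinAt
        · intro v hv
          rw [interior_Ioc] at hv
          exact (hder v hv.1).differentiableAt.differentiableWithinAt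
        · intro v hv
          rw [interior_Ioc] at hv
          rw [(hder v hv.1).deriv]
          have h3 : (v - 1) ^ 3 ≤ 0 := by
            have : 0 ≤ 1 - v := by linarith [hv.2]
            have h4 : 0 ≤ (1 - v) ^ 3 := by positivity
            nlinarith
          exact div_nonpos_of_nonpos_of_nonneg h3 hv.1.le
      have := hm (Set.mem_Ioc.mpr ⟨hu, h⟩) (Set.mem_Ioc.mpr ⟨one_pos, le_rfl⟩) h
      rwa [h0] at this
  simp only [hf] at key
  linarith

theorem log_ub {t t0 q : ℝ} (ht : 0 < t) (ht0 : 0 < t0) (hq : log t0 ≤ q) :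
    log t ≤ q + (t / t0 - 1) - (t / t0 - 1) ^ 2 / 2 + (t / t0 - 1) ^ 3 / 3 := by
  have h1 : log t = log t0 + log (t / t0) := by
    rw [log_div ht.ne' ht0.ne']
    ring
  have h2 := log_ub_one (u := t / t0) (by positivity)
  rw [h1]
  linarith

theorem log_three_bounds : 1.0986122 < log 3 ∧ log 3 < 1.0986124 := by
  have h := Real.abs_log_sub_add_sum_range_le (x := (1 / 4 : ℝ)) (by norm_num [abs_of_pos]) 14
  have e : log 3 = 2 * log 2 + log (1 - 1 / 4) := by
    rw [show (1 - 1 / 4 : ℝ) = 3 / 2 ^ 2 by norm_num, log_div (by norm_num) (by norm_num), log_pow]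
    push_cast
    ring
  rw [abs_le] at h
  norm_num [Finset.sum_range_succ, abs_of_pos] at h
  have h2 := Real.log_two_gt_d9
  have h3 := Real.log_two_lt_d9
  norm_num at e
  constructor <;> linarith [h.1, h.2]

theorem log_five_bounds : 1.6094378 < log 5 ∧ log 5 < 1.6094380 := by
  have h := Real.abs_log_sub_add_sum_range_le (x := (1 / 5 : ℝ)) (by norm_num [abs_of_pos]) 13
  have e : log 5 = 2 * log 2 - log (1 - 1 / 5) := by
    rw [show (1 - 1 / 5 : ℝ) = 2 ^ 2 / 5 by norm_num, log_div (by norm_num) (by norm_num), log_pow]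
    push_cast
    ring
  rw [abs_le] at h
  norm_num [Finset.sum_range_succ, abs_of_pos] at h
  have h2 := Real.log_two_gt_d9
  have h3 := Real.log_two_lt_d9
  norm_num at e
  constructor <;> linarith [h.1, h.2]

theorem D1_lower {x U1 U2 U3 T : ℝ} (h0 : 1 / 2 ≤ x) (h1 : x < 1) (hU1 : log x ≤ U1)
    (hU2 : log (1 - x) ≤ U2) (hU3 : log (1 + x) ≤ U3)
    (hT : 0 ≤ (-(343 / 1234) * x ^ 2 * U1 - (1 - x) * (1 + x - 2125 / 1234 * x) * U2
        - (1 - x ^ 2) * U3 + 433 / 10000 * ((x - 617 / 1000) *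
          (-(131 / 500) + 36 / 25 * x - 162 / 125 * x ^ 3) / (617 / 1000)) - T) * (1 + x) ^ 2
      + 433 / 10000 * (4 * x ^ 2 * (1 - x ^ 2) * (1 + x) ^ 2
        + 4 * x ^ 2 * (1 - 2 * x ^ 2) * (1 - x) * (1 + x) - 4 * x ^ 4 * (1 - x) ^ 2)) :
    T ≤ D1 x := by
  have hx0 : 0 < x := by linarith
  have hlog2 : log (x * x) = 2 * log x := by
    rw [log_mul hx0.ne' hx0.ne']; ring
  have hlog3 : log (1 - x * x) = log (1 - x) + log (1 + x) := by
    rw [← log_mul (by linarith) (by linarith)]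
    congr 1
    ring
  have hmax : max 0 (1 / 2 + 3 / 2 * (x * x) - x - x) = 0 := by
    apply max_eq_left
    nlinarith
  have hne : 1 - x * x ≠ 0 := by nlinarith
  have hne1 : 1 + x ≠ 0 := by linarith
  have hne2 : 1 - x ≠ 0 := by linarith
  have hG : Gk x x = (4 * x ^ 2 * (1 - x ^ 2) * (1 + x) ^ 2
        + 4 * x ^ 2 * (1 - 2 * x ^ 2) * (1 - x) * (1 + x) - 4 * x ^ 4 * (1 - x) ^ 2) /
        (1 + x) ^ 2 := by
    unfold Gk
    rw [hmax]
    have e : 1 - x * x = (1 - x) * (1 + x) := by ring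
    rw [e]
    field_simp
    ring
  have hA : AH x x = -(343 / 1234) * x ^ 2 * log x
      - (1 - x) * (1 + x - 2125 / 1234 * x) * log (1 - x) - (1 - x ^ 2) * log (1 + x) := by
    unfold AH hb negMulLog
    rw [hlog2, hlog3]
    ring
  have hD : D1 x = -(343 / 1234) * x ^ 2 * log x
      - (1 - x) * (1 + x - 2125 / 1234 * x) * log (1 - x) - (1 - x ^ 2) * log (1 + x) +
      433 / 10000 * (((4 * x ^ 2 * (1 - x ^ 2) * (1 + x) ^ 2
        + 4 * x ^ 2 * (1 - 2 * x ^ 2) * (1 - x) * (1 + x) - 4 * x ^ 4 * (1 - x) ^ 2) /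
        (1 + x) ^ 2) + (x - 617 / 1000) *
          (-(131 / 500) + 36 / 25 * x - 162 / 125 * x ^ 3) / (617 / 1000)) := by
    unfold D1
    rw [hA, hG]
    unfold xiH
    ring
  have hc1 : 0 ≤ 343 / 1234 * x ^ 2 := by positivity
  have hc2 : 0 ≤ (1 - x) * (1 + x - 2125 / 1234 * x) := by
    apply mul_nonneg <;> linarith
  have hc3 : 0 ≤ 1 - x ^ 2 := by nlinarith
  have m1 := mul_le_mul_of_nonneg_left hU1 hc1
  have m2 := mul_le_mul_of_nonneg_left hU2 hc2
  have m3 := mul_le_mul_of_nonneg_left hU3 hc3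
  have hp : 0 < (1 + x) ^ 2 := by positivity
  have hT2 := div_nonneg hT hp.le
  have e2 : ((-(343 / 1234) * x ^ 2 * U1 - (1 - x) * (1 + x - 2125 / 1234 * x) * U2
        - (1 - x ^ 2) * U3 + 433 / 10000 * ((x - 617 / 1000) *
          (-(131 / 500) + 36 / 25 * x - 162 / 125 * x ^ 3) / (617 / 1000)) - T) * (1 + x) ^ 2
      + 433 / 10000 * (4 * x ^ 2 * (1 - x ^ 2) * (1 + x) ^ 2
        + 4 * x ^ 2 * (1 - 2 * x ^ 2) * (1 - x) * (1 + x) - 4 * x ^ 4 * (1 - x) ^ 2)) /
        (1 + x) ^ 2 =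
      (-(343 / 1234) * x ^ 2 * U1 - (1 - x) * (1 + x - 2125 / 1234 * x) * U2
        - (1 - x ^ 2) * U3 + 433 / 10000 * ((x - 617 / 1000) *
          (-(131 / 500) + 36 / 25 * x - 162 / 125 * x ^ 3) / (617 / 1000)) - T) +
      433 / 10000 * ((4 * x ^ 2 * (1 - x ^ 2) * (1 + x) ^ 2
        + 4 * x ^ 2 * (1 - 2 * x ^ 2) * (1 - x) * (1 + x) - 4 * x ^ 4 * (1 - x) ^ 2) /
        (1 + x) ^ 2) := by
    field_simp
  rw [e2] at hT2
  rw [hD]
  linarith [hT2, m1, m2, m3]

theorem lg_4_5 : log (4 / 5) ≤ (-(111571 / 500000)) := by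
  have h2 := Real.log_two_gt_d9
  have h2' := Real.log_two_lt_d9
  have h3 := log_three_bounds
  have h5 := log_five_bounds
  have e : log (4 / 5) = 2 * log 2 + 0 * log 3 + (-1) * log 5 := by
    rw [show ((4 / 5) : ℝ) = 2 ^ (2 : ℤ) * 3 ^ (0 : ℤ) * 5 ^ (-1 : ℤ) by norm_num [zpow_neg],
      log_mul (by positivity) (by positivity), log_mul (by positivity) (by positivity),
      log_zpow, log_zpow, log_zpow]
    push_cast
    ring
  rw [e]
  linarith [h3.1, h3.2, h5.1, h5.2]

theorem lg_2_9 : log (2 / 9) ≤ (-(376019 / 250000)) := by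
  have h2 := Real.log_two_gt_d9
  have h2' := Real.log_two_lt_d9
  have h3 := log_three_bounds
  have h5 := log_five_bounds
  have e : log (2 / 9) = 1 * log 2 + (-2) * log 3 + 0 * log 5 := by
    rw [show ((2 / 9) : ℝ) = 2 ^ (1 : ℤ) * 3 ^ (-2 : ℤ) * 5 ^ (0 : ℤ) by norm_num [zpow_neg],
      log_mul (by positivity) (by positivity), log_mul (by positivity) (by positivity),
      log_zpow, log_zpow, log_zpow]
    push_cast
    ring
  rw [e]
  linarith [h3.1, h3.2, h5.1, h5.2]

theorem lg_9_5 : log (9 / 5) ≤ (146947 / 250000) := by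
  have h2 := Real.log_two_gt_d9
  have h2' := Real.log_two_lt_d9
  have h3 := log_three_bounds
  have h5 := log_five_bounds
  have e : log (9 / 5) = 0 * log 2 + 2 * log 3 + (-1) * log 5 := by
    rw [show ((9 / 5) : ℝ) = 2 ^ (0 : ℤ) * 3 ^ (2 : ℤ) * 5 ^ (-1 : ℤ) by norm_num [zpow_neg],
      log_mul (by positivity) (by positivity), log_mul (by positivity) (by positivity),
      log_zpow, log_zpow, log_zpow]
    push_cast
    ring
  rw [e]
  linarith [h3.1, h3.2, h5.1, h5.2]

theorem lg_5_6 : log (5 / 6) ≤ (-(2279 / 12500)) := by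
  have h2 := Real.log_two_gt_d9
  have h2' := Real.log_two_lt_d9
  have h3 := log_three_bounds
  have h5 := log_five_bounds
  have e : log (5 / 6) = (-1) * log 2 + (-1) * log 3 + 1 * log 5 := by
    rw [show ((5 / 6) : ℝ) = 2 ^ (-1 : ℤ) * 3 ^ (-1 : ℤ) * 5 ^ (1 : ℤ) by norm_num [zpow_neg],
      log_mul (by positivity) (by positivity), log_mul (by positivity) (by positivity),
      log_zpow, log_zpow, log_zpow]
    push_cast
    ring
  rw [e]
  linarith [h3.1, h3.2, h5.1, h5.2]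

theorem lg_1_6 : log (1 / 6) ≤ (-(895879 / 500000)) := by
  have h2 := Real.log_two_gt_d9
  have h2' := Real.log_two_lt_d9
  have h3 := log_three_bounds
  have h5 := log_five_bounds
  have e : log (1 / 6) = (-1) * log 2 + (-1) * log 3 + 0 * log 5 := by
    rw [show ((1 / 6) : ℝ) = 2 ^ (-1 : ℤ) * 3 ^ (-1 : ℤ) * 5 ^ (0 : ℤ) by norm_num [zpow_neg],
      log_mul (by positivity) (by positivity), log_mul (by positivity) (by positivity),
      log_zpow, log_zpow, log_zpow]
    push_cast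
    ring
  rw [e]
  linarith [h3.1, h3.2, h5.1, h5.2]

theorem lg_9_10 : log (9 / 10) ≤ (-(105359 / 1000000)) := by
  have h2 := Real.log_two_gt_d9
  have h2' := Real.log_two_lt_d9
  have h3 := log_three_bounds
  have h5 := log_five_bounds
  have e : log (9 / 10) = (-1) * log 2 + 2 * log 3 + (-1) * log 5 := by
    rw [show ((9 / 10) : ℝ) = 2 ^ (-1 : ℤ) * 3 ^ (2 : ℤ) * 5 ^ (-1 : ℤ) by norm_num [zpow_neg],
      log_mul (by positivity) (by positivity), log_mul (by positivity) (by positivity),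
      log_zpow, log_zpow, log_zpow]
    push_cast
    ring
  rw [e]
  linarith [h3.1, h3.2, h5.1, h5.2]

theorem lg_1_8 : log (1 / 8) ≤ (-(25993 / 12500)) := by
  have h2 := Real.log_two_gt_d9
  have h2' := Real.log_two_lt_d9
  have h3 := log_three_bounds
  have h5 := log_five_bounds
  have e : log (1 / 8) = (-3) * log 2 + 0 * log 3 + 0 * log 5 := by
    rw [show ((1 / 8) : ℝ) = 2 ^ (-3 : ℤ) * 3 ^ (0 : ℤ) * 5 ^ (0 : ℤ) by norm_num [zpow_neg],
      log_mul (by positivity) (by positivity), log_mul (by positivity) (by positivity),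
      log_zpow, log_zpow, log_zpow]
    push_cast
    ring
  rw [e]
  linarith [h3.1, h3.2, h5.1, h5.2]

theorem lg_15_8 : log (15 / 8) ≤ (62861 / 100000) := by
  have h2 := Real.log_two_gt_d9
  have h2' := Real.log_two_lt_d9
  have h3 := log_three_bounds
  have h5 := log_five_bounds
  have e : log (15 / 8) = (-3) * log 2 + 1 * log 3 + 1 * log 5 := by
    rw [show ((15 / 8) : ℝ) = 2 ^ (-3 : ℤ) * 3 ^ (1 : ℤ) * 5 ^ (1 : ℤ) by norm_num [zpow_neg],
      log_mul (by positivity) (by positivity), log_mul (by positivity) (by positivity),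
      log_zpow, log_zpow, log_zpow]
    push_cast
    ring
  rw [e]
  linarith [h3.1, h3.2, h5.1, h5.2]

theorem lg_1_12 : log (1 / 12) ≤ (-(496981 / 200000)) := by
  have h2 := Real.log_two_gt_d9
  have h2' := Real.log_two_lt_d9
  have h3 := log_three_bounds
  have h5 := log_five_bounds
  have e : log (1 / 12) = (-2) * log 2 + (-1) * log 3 + 0 * log 5 := by
    rw [show ((1 / 12) : ℝ) = 2 ^ (-2 : ℤ) * 3 ^ (-1 : ℤ) * 5 ^ (0 : ℤ) by norm_num [zpow_neg],
      log_mul (by positivity) (by positivity), log_mul (by positivity) (by positivity),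
      log_zpow, log_zpow, log_zpow]
    push_cast
    ring
  rw [e]
  linarith [h3.1, h3.2, h5.1, h5.2]

theorem lg_2_1 : log 2 ≤ (693149 / 1000000) := by
  have h2 := Real.log_two_gt_d9
  have h2' := Real.log_two_lt_d9
  have h3 := log_three_bounds
  have h5 := log_five_bounds
  have e : log 2 = 1 * log 2 + 0 * log 3 + 0 * log 5 := by
    rw [show (2 : ℝ) = 2 ^ (1 : ℤ) * 3 ^ (0 : ℤ) * 5 ^ (0 : ℤ) by norm_num [zpow_neg],
      log_mul (by positivity) (by positivity), log_mul (by positivity) (by positivity),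
      log_zpow, log_zpow, log_zpow]
    push_cast
    ring
  rw [e]
  linarith [h3.1, h3.2, h5.1, h5.2]

theorem lg_15_16 : log (15 / 16) ≤ (-(64537 / 1000000)) := by
  have h2 := Real.log_two_gt_d9
  have h2' := Real.log_two_lt_d9
  have h3 := log_three_bounds
  have h5 := log_five_bounds
  have e : log (15 / 16) = (-4) * log 2 + 1 * log 3 + 1 * log 5 := by
    rw [show ((15 / 16) : ℝ) = 2 ^ (-4 : ℤ) * 3 ^ (1 : ℤ) * 5 ^ (1 : ℤ) by norm_num [zpow_neg],
      log_mul (by positivity) (by positivity), log_mul (by positivity) (by positivity),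
      log_zpow, log_zpow, log_zpow]
    push_cast
    ring
  rw [e]
  linarith [h3.1, h3.2, h5.1, h5.2]

theorem lg_1_18 : log (1 / 18) ≤ (-(289037 / 100000)) := by
  have h2 := Real.log_two_gt_d9
  have h2' := Real.log_two_lt_d9
  have h3 := log_three_bounds
  have h5 := log_five_bounds
  have e : log (1 / 18) = (-1) * log 2 + (-2) * log 3 + 0 * log 5 := by
    rw [show ((1 / 18) : ℝ) = 2 ^ (-1 : ℤ) * 3 ^ (-2 : ℤ) * 5 ^ (0 : ℤ) by norm_num [zpow_neg],
      log_mul (by positivity) (by positivity), log_mul (by positivity) (by positivity),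
      log_zpow, log_zpow, log_zpow]
    push_cast
    ring
  rw [e]
  linarith [h3.1, h3.2, h5.1, h5.2]

theorem D_a1 {x : ℝ} (h0 : (3 / 4) ≤ x) (h1 : x ≤ (4 / 5)) : (3 / 2500) ≤ D1 x := by
  have l1 := log_ub (t := x) (t0 := (4 / 5)) (by linarith) (by norm_num) lg_4_5
  have l2 := log_ub (t := 1 - x) (t0 := (2 / 9)) (by linarith) (by norm_num) lg_2_9
  have l3 := log_ub (t := 1 + x) (t0 := (9 / 5)) (by linarith) (by norm_num) lg_9_5
  refine D1_lower (by linarith) (by linarith) l1 l2 l3 ?_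
  have key : ∀ a b : ℝ, 0 ≤ a → 0 ≤ b → 0 ≤ (87766399164875 / 172720512) * a ^ 0 * b ^ 7 + (404645394293801 / 53975160) * a ^ 1 * b ^ 6 + (349852012724629 / 9995400) * a ^ 2 * b ^ 5 + (56240921022806 / 694125) * a ^ 3 * b ^ 4 + (122547846954928 / 1156875) * a ^ 4 * b ^ 3 + (462075082875616 / 5784375) * a ^ 5 * b ^ 2 + (62649149672704 / 1928125) * a ^ 6 * b ^ 1 + (10657514682112 / 1928125) * a ^ 7 * b ^ 0 := by
    intro a b ha hb
    positivity
  have hk := key (x - (3 / 4)) ((4 / 5) - x) (by linarith) (by linarith)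
  refine hk.trans (le_of_eq ?_)
  ring

theorem D_b1 {x : ℝ} (h0 : (4 / 5) ≤ x) (h1 : x ≤ (17 / 20)) : (3 / 1250) ≤ D1 x := by
  have l1 := log_ub (t := x) (t0 := (5 / 6)) (by linarith) (by norm_num) lg_5_6
  have l2 := log_ub (t := 1 - x) (t0 := (1 / 6)) (by linarith) (by norm_num) lg_1_6
  have l3 := log_ub (t := 1 + x) (t0 := (9 / 5)) (by linarith) (by norm_num) lg_9_5
  refine D1_lower (by linarith) (by linarith) l1 l2 l3 ?_
  have key : ∀ a b : ℝ, 0 ≤ a → 0 ≤ b → 0 ≤ (846181242112 / 1928125) * a ^ 0 * b ^ 7 + (18929098915264 / 1928125) * a ^ 1 * b ^ 6 + (95017447983232 / 1928125) * a ^ 2 * b ^ 5 + (134454305495156 / 1156875) * a ^ 3 * b ^ 4 + (528632102447581 / 3470625) * a ^ 4 * b ^ 3 + (17865234398616389 / 156178125) * a ^ 5 * b ^ 2 + (194633024136118771 / 4216809375) * a ^ 6 * b ^ 1 + (10909930963629916 / 1405603125) * a ^ 7 * b ^ 0 := by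
    intro a b ha hb
    positivity
  have hk := key (x - (4 / 5)) ((17 / 20) - x) (by linarith) (by linarith)
  refine hk.trans (le_of_eq ?_)
  ring

theorem D_c1 {x : ℝ} (h0 : (17 / 20) ≤ x) (h1 : x ≤ (9 / 10)) : (1 / 250) ≤ D1 x := by
  have l1 := log_ub (t := x) (t0 := (9 / 10)) (by linarith) (by norm_num) lg_9_10
  have l2 := log_ub (t := 1 - x) (t0 := (1 / 8)) (by linarith) (by norm_num) lg_1_8
  have l3 := log_ub (t := 1 + x) (t0 := (15 / 8)) (by linarith) (by norm_num) lg_15_8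
  refine D1_lower (by linarith) (by linarith) l1 l2 l3 ?_
  have key : ∀ a b : ℝ, 0 ≤ a → 0 ≤ b → 0 ≤ (5648726624443571 / 8433618750) * a ^ 0 * b ^ 7 + (112053966569900477 / 8433618750) * a ^ 1 * b ^ 6 + (542111039833135841 / 8433618750) * a ^ 2 * b ^ 5 + (27776179030517867 / 187413750) * a ^ 3 * b ^ 4 + (5951499860333084 / 31235625) * a ^ 4 * b ^ 3 + (7287822986779772 / 52059375) * a ^ 5 * b ^ 2 + (951737509023128 / 17353125) * a ^ 6 * b ^ 1 + (1381497221263336 / 156178125) * a ^ 7 * b ^ 0 := by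
    intro a b ha hb
    positivity
  have hk := key (x - (17 / 20)) ((9 / 10) - x) (by linarith) (by linarith)
  refine hk.trans (le_of_eq ?_)
  ring

theorem D_d1 {x : ℝ} (h0 : (9 / 10) ≤ x) (h1 : x ≤ (14 / 15)) : (29 / 5000) ≤ D1 x := by
  have l1 := log_ub (t := x) (t0 := (9 / 10)) (by linarith) (by norm_num) lg_9_10
  have l2 := log_ub (t := 1 - x) (t0 := (1 / 12)) (by linarith) (by norm_num) lg_1_12
  have l3 := log_ub (t := 1 + x) (t0 := 2) (by linarith) (by norm_num) lg_2_1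
  refine D1_lower (by linarith) (by linarith) l1 l2 l3 ?_
  have key : ∀ a b : ℝ, 0 ≤ a → 0 ≤ b → 0 ≤ (144339447204567 / 15425000) * a ^ 0 * b ^ 7 + (2402433397032219 / 15425000) * a ^ 1 * b ^ 6 + (10834013584004877 / 15425000) * a ^ 2 * b ^ 5 + (4713899366914593 / 3085000) * a ^ 3 * b ^ 4 + (51533172612094861 / 27765000) * a ^ 4 * b ^ 3 + (601916122776955148 / 468534375) * a ^ 5 * b ^ 2 + (1322495829596015561 / 2811206250) * a ^ 6 * b ^ 1 + (294231816100211492 / 4216809375) * a ^ 7 * b ^ 0 := by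
    intro a b ha hb
    positivity
  have hk := key (x - (9 / 10)) ((14 / 15) - x) (by linarith) (by linarith)
  refine hk.trans (le_of_eq ?_)
  ring

theorem D_d2 {x : ℝ} (h0 : (14 / 15) ≤ x) (h1 : x ≤ (24 / 25)) : (29 / 5000) ≤ D1 x := by
  have l1 := log_ub (t := x) (t0 := (15 / 16)) (by linarith) (by norm_num) lg_15_16
  have l2 := log_ub (t := 1 - x) (t0 := (1 / 18)) (by linarith) (by norm_num) lg_1_18
  have l3 := log_ub (t := 1 + x) (t0 := 2) (by linarith) (by norm_num) lg_2_1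
  refine D1_lower (by linarith) (by linarith) l1 l2 l3 ?_
  have key : ∀ a b : ℝ, 0 ≤ a → 0 ≤ b → 0 ≤ (17086583269883275 / 51176448) * a ^ 0 * b ^ 7 + (167836032102932975 / 68235264) * a ^ 1 * b ^ 6 + (170133059848523395 / 22745088) * a ^ 2 * b ^ 5 + (971849194555007 / 78976) * a ^ 3 * b ^ 4 + (14915739307997043 / 1263616) * a ^ 4 * b ^ 3 + (2052871488325308357 / 315904000) * a ^ 5 * b ^ 2 + (577589138180860599 / 315904000) * a ^ 6 * b ^ 1 + (28834687842256809 / 157952000) * a ^ 7 * b ^ 0 := by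
    intro a b ha hb
    positivity
  have hk := key (x - (14 / 15)) ((24 / 25) - x) (by linarith) (by linarith)
  refine hk.trans (le_of_eq ?_)
  ring

theorem D_a {x : ℝ} (h0 : 3 / 4 ≤ x) (h1 : x ≤ 4 / 5) : 12 / 10000 ≤ D1 x :=
  le_trans (by norm_num) (D_a1 h0 h1)

theorem D_b {x : ℝ} (h0 : 4 / 5 ≤ x) (h1 : x ≤ 17 / 20) : 24 / 10000 ≤ D1 x :=
  le_trans (by norm_num) (D_b1 h0 h1)

theorem D_c {x : ℝ} (h0 : 17 / 20 ≤ x) (h1 : x ≤ 9 / 10) : 40 / 10000 ≤ D1 x :=
  le_trans (by norm_num) (D_c1 h0 h1)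

theorem D_d {x : ℝ} (h0 : 9 / 10 ≤ x) (h1 : x ≤ 24 / 25) : 58 / 10000 ≤ D1 x := by
  have e : (58 : ℝ) / 10000 = 29 / 5000 := by norm_num
  rcases le_total x (14 / 15) with h | h
  · rw [e]; exact D_d1 h0 h
  · rw [e]; exact D_d2 h h1

end Pool.Agent.H896R2.UC
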